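import Pool.Agent.Lib.MP_305fdd_al.VF.P.Stm
import Pool.Agent.Lib.MP_305fdd_al.AbClass

set_option autoImplicit false

namespace Pool.Agent.VF

open Pool.Agent.MP_305fdd_al Pool.Agent.Lib.MP_305fdd_al

private theorem r0 : ProfinitelyRigid (FreeGroup (Fin 0)) := by
  intro Λ _ hΛ
  obtain ⟨hfg, hrf, hs⟩ := hΛ
  have hsub : ∀ x : Λ, x = 1 := by
    intro x
    by_contra hx
    obtain ⟨Q, _, _, Θ, hΘ⟩ := exists_sep hrf (fun _ : Unit => x) (fun _ => hx)
    obtain ⟨φ, hφ⟩ := (hs Θ.range).mp ⟨Θ.rangeRestrict, Θ.rangeRestrict_surjective⟩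
    obtain ⟨g, hg⟩ := hφ (Θ.rangeRestrict x)
    have h1 : g = 1 := Subsingleton.elim _ _
    rw [h1, map_one] at hg
    exact hΘ () (congrArg Subtype.val hg.symm)
  have : Subsingleton Λ := ⟨fun a b => by rw [hsub a, hsub b]⟩
  exact ⟨{ toFun := fun _ => 1, invFun := fun _ => 1, left_inv := fun _ => Subsingleton.elim _ _,
           right_inv := fun _ => Subsingleton.elim _ _, map_mul' := fun _ _ => by simp }⟩

private theorem r1 : ProfinitelyRigid (FreeGroup (Fin 1)) := by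
  intro Λ _ hΛ
  obtain ⟨hfg, hrf, hs⟩ := hΛ
  have hGfg : Group.FG (FreeGroup (Fin 1)) := inferInstance
  obtain ⟨n, p, N, hp, hN, hrk⟩ := exists_free_quotient Λ
  obtain ⟨q, hq, hqp⟩ := Nat.exists_infinite_primes (N + 1)
  have : Fact q.Prime := ⟨hqp⟩
  have hqN : ¬ q ∣ N := fun h => by
    have := Nat.le_of_dvd (Nat.pos_of_ne_zero hN) h
    omega
  have h1 := hrk q ⟨hqp⟩ hqN
  have h2 := card_hom_zmod q Λ
  rw [h1] at h2
  have h3 : hc Λ (Multiplicative (ZMod q)) = hc (FreeGroup (Fin 1)) (Multiplicative (ZMod q)) :=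
    hc_eq_of_same _ hs
  have h4 : hc (FreeGroup (Fin 1)) (Multiplicative (ZMod q)) = q := by
    unfold hc
    rw [← Nat.card_congr (FreeGroup.lift (α := Fin 1) (β := Multiplicative (ZMod q))),
      Nat.card_fun, Nat.card_fin, pow_one]
    exact Nat.card_zmod q
  have h5 : q ^ n = q ^ 1 := by
    rw [← h2, pow_one]
    exact h3.trans h4
  have h6 : n = 1 := Nat.pow_right_injective hqp.two_le h5
  subst h6
  let f : Λ →* FreeGroup (Fin 1) :=
    ((zpowersHom (FreeGroup (Fin 1)) (FreeGroup.of 0)).comp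
      (AddMonoidHom.toMultiplicative (Finsupp.applyAddHom (0 : Fin 1)))).comp p
  have hf : Function.Surjective f := by
    rw [← MonoidHom.range_eq_top, eq_top_iff, ← FreeGroup.closure_range_of, Subgroup.closure_le]
    rintro _ ⟨i, rfl⟩
    obtain ⟨t, ht⟩ := hp (Multiplicative.ofAdd (Finsupp.single 0 1))
    refine ⟨t, ?_⟩
    have hi : i = 0 := Subsingleton.elim _ _
    subst hi
    show zpowersHom (FreeGroup (Fin 1)) (FreeGroup.of 0)
      (AddMonoidHom.toMultiplicative (Finsupp.applyAddHom (0 : Fin 1)) (p t)) = _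
    rw [ht]
    show (FreeGroup.of 0 : FreeGroup (Fin 1)) ^ ((Finsupp.single (0 : Fin 1) (1 : ℤ)) 0) = _
    rw [Finsupp.single_eq_same, zpow_one]
  exact equiv_of_hc_eq f hf fun Q _ _ => (hc_eq_of_same Q hs).symm

theorem p_r01 : S_r01 := ⟨r0, r1⟩

end Pool.Agent.VF
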