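import Pool.Agent.Lib.MP_305fdd_al.VF.P.Stm

/-!
# MP_305fdd_al, block VF, [VF M]: matching
-/

set_option autoImplicit false

namespace Pool.Agent.VF

open Pool.Agent.MP_305fdd_al Pool.Agent.Lib.MP_305fdd_al

/-- a common number `N` -/
private theorem MM_allowed {ι : Type} [Finite ι] (m : ι → ℕ) :
    ∃ N : ℕ, N ≠ 0 ∧ ∀ N', N ∣ N' → ∀ i, Allowed N' (m i) := by
  classical
  have := Fintype.ofFinite ι
  refine ⟨∏ i, (if m i = 0 then 1 else m i), ?_, ?_⟩
  · rw [Finset.prod_ne_zero_iff]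
    intro i _
    split
    · exact one_ne_zero
    · assumption
  · intro N' hN' i
    by_cases h : m i = 0
    · exact Or.inl h
    · refine Or.inr (dvd_trans ?_ hN')
      have h1 := Finset.dvd_prod_of_mem (fun i => if m i = 0 then 1 else m i) (Finset.mem_univ i)
      simpa only [if_neg h] using h1

theorem p_MM : S_MM := by
  intro ι _ m n m' Λ _ hΛ hm'
  obtain ⟨e⟩ := hm'
  obtain ⟨hfg, hrf, hsame⟩ := hΛ
  obtain ⟨N1, hN1, h1⟩ := MM_allowed m
  obtain ⟨N2, hN2, h2⟩ := MM_allowed m'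
  have h3 : ∀ (Q : Type) [Group Q] [Finite Q], hc (FP m') Q = hc (FP m) Q := by
    intro Q _ _
    rw [← hc_equiv Q e]
    exact hc_eq_of_same Q hsame
  obtain ⟨f⟩ := FP_equiv_of_card m' m
    (card_eq_of_hc_eq (N := N1 * N2) (mul_ne_zero hN1 hN2) m' m
      (h2 _ (Dvd.intro_left _ rfl)) (h1 _ (Dvd.intro _ rfl)) h3)
  exact ⟨e.trans f⟩

end Pool.Agent.VF
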