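import Pool.Agent.Lib.MP_305fdd_al.VF.P.Stm
import Pool.Agent.Lib.MP_305fdd_al.F2X.P.cor
import Pool.Agent.Lib.MP_305fdd_al.Val

set_option autoImplicit false

namespace Pool.Agent.VF

open Monoid Pool.Agent.MP_305fdd_al Pool.Agent.Lib.MP_305fdd_al

private def idBij (G : Type) [Group G] : NatBij G G where
  toFun := fun _ _ _ θ => θ
  invFun := fun _ _ _ θ => θ
  left_inv := fun _ _ _ _ => rfl
  right_inv := fun _ _ _ _ => rfl
  nat := fun _ _ => rfl

private theorem kf_tf (hp1 : S_p1) {ι : Type} [Finite ι] (m : ι → ℕ) {p : ℕ} (hp : p.Prime)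
    (x : FP m) (hx : x ^ p = 1) (hx1 : x ≠ 1) : pr m x ≠ 1 := by
  have : Fact p.Prime := ⟨hp⟩
  exact (hp1 ι m (FP m) (idBij (FP m)) (rf_FP m) p x hx hx1).1

private theorem kf_zero (n : ℕ) :
    Nonempty (FP (fun _ : Fin n => 0) ≃* FreeGroup (Fin n)) := by
  let A : FP (fun _ : Fin n => 0) →* FreeGroup (Fin n) :=
    CoprodI.lift fun j => zpowersHom (FreeGroup (Fin n)) (FreeGroup.of j)
  let B : FreeGroup (Fin n) →* FP (fun _ : Fin n => 0) :=
    FreeGroup.lift fun j => oi (fun _ : Fin n => 0) j (Multiplicative.ofAdd (1 : ℤ))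
  have hA : ∀ j : Fin n, A (oi (fun _ : Fin n => 0) j (Multiplicative.ofAdd (1 : ℤ))) =
      FreeGroup.of j := by
    intro j
    have h1 : A (oi (fun _ : Fin n => 0) j (Multiplicative.ofAdd (1 : ℤ))) =
        zpowersHom (FreeGroup (Fin n)) (FreeGroup.of j) (Multiplicative.ofAdd (1 : ℤ)) :=
      CoprodI.lift_of _ _
    rw [h1]
    show (FreeGroup.of j) ^ (1 : ℤ) = _
    rw [zpow_one]
  have hB : ∀ j : Fin n, B (FreeGroup.of j) =
      oi (fun _ : Fin n => 0) j (Multiplicative.ofAdd (1 : ℤ)) := fun j => FreeGroup.lift_apply_of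
  refine ⟨MonoidHom.toMulEquiv A B ?_ ?_⟩
  · apply CoprodI.ext_hom
    intro j
    apply MonoidHom.ext_mint
    show B (A (oi (fun _ : Fin n => 0) j (Multiplicative.ofAdd (1 : ℤ)))) = _
    rw [hA, hB]
    rfl
  · apply FreeGroup.ext_hom
    intro j
    show A (B (FreeGroup.of j)) = FreeGroup.of j
    rw [hB, hA]

theorem p_kf (hp1 : S_p1) : S_kf := by
  intro ι _ m
  classical
  have : Fintype ι := Fintype.ofFinite ι
  have hFG : Group.FG (FP m) := fg_coprodI (fun i => fg_of_cyclic _)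
  have hKi : (pr m).ker.FiniteIndex := Subgroup.finiteIndex_ker _
  have hKfg : Group.FG (pr m).ker := inferInstance
  let N := ∏ i, (if m i = 0 then 1 else m i)
  have hN : ∀ i, Allowed N (m i) := by
    intro i
    by_cases h : m i = 0
    · exact Or.inl h
    · right
      have := Finset.dvd_prod_of_mem (fun i => if m i = 0 then 1 else m i) (Finset.mem_univ i)
      simp only [h, if_false] at this
      exact this
  obtain ⟨n, l', hl, hl1, ⟨e⟩⟩ := fg_subgroup m hN (pr m).ker hKfg
  have h0 : ∀ j, l' j = 0 := by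
    intro j
    by_contra hj
    obtain ⟨p, hp, k, hk⟩ := Nat.exists_prime_and_dvd (hl1 j)
    have hk0 : k ≠ 0 := by
      rintro rfl
      rw [mul_zero] at hk
      exact hj hk
    let y : Multiplicative (ZMod (l' j)) := Multiplicative.ofAdd ((k : ℕ) : ZMod (l' j))
    have hy1 : y ≠ 1 := by
      intro h
      have h1 : ((k : ℕ) : ZMod (l' j)) = 0 := h
      rw [ZMod.natCast_eq_zero_iff] at h1
      have h2 := Nat.le_of_dvd (Nat.pos_of_ne_zero hk0) h1
      have h3 : 2 * k ≤ p * k := Nat.mul_le_mul_right k hp.two_le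
      omega
    have hyp : y ^ p = 1 := by
      have h1 : (p : ℕ) • ((k : ℕ) : ZMod (l' j)) = 0 := by
        rw [nsmul_eq_mul, ← Nat.cast_mul, ← hk, ZMod.natCast_self]
      exact h1
    have hinj : Function.Injective (fun y : Multiplicative (ZMod (l' j)) =>
        (e.symm (oi l' j y)).1) := by
      intro a b hab
      exact CoprodI.of_injective j (e.symm.injective (Subtype.ext hab))
    have hx1 : (e.symm (oi l' j y)).1 ≠ 1 := by
      intro h
      apply hy1
      apply hinj
      show (e.symm (oi l' j y)).1 = (e.symm (oi l' j 1)).1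
      rw [h, map_one, map_one]
      rfl
    have hxp : (e.symm (oi l' j y)).1 ^ p = 1 := by
      rw [← Subgroup.coe_pow, ← map_pow, ← map_pow, hyp, map_one, map_one]
      rfl
    exact kf_tf hp1 m hp _ hxp hx1 (e.symm (oi l' j y)).2
  obtain rfl : l' = fun _ => 0 := funext h0
  obtain ⟨f⟩ := kf_zero n
  exact ⟨n, ⟨e.trans f⟩⟩

end Pool.Agent.VF
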