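import Pool.Agent.Lib.MP_305fdd_al.VF.P.Stm

/-!
# MP_305fdd_al, block VF, part (P): proof of [VF P loc]
-/

set_option autoImplicit false

namespace Pool.Agent.VF

open Pool.Agent.MP_305fdd_al Pool.Agent.Lib.MP_305fdd_al

theorem p_loc (hp1 : S_p1) (hz : S_z) : S_loc := by
  intro ι _ m Λ _ Φ hrf p _ x hx hx1
  obtain ⟨-, i, y, hmi, hyp, -, hconj⟩ := hp1 ι m Λ Φ hrf p x hx hx1
  have hfin : Finite (Multiplicative (ZMod (m i))) := by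
    have : NeZero (m i) := ⟨hmi⟩
    exact (inferInstance : Finite (ZMod (m i)))
  refine ⟨m i, ?_⟩
  intro Q _ _ Θ hΘ
  have h1 : IsConj (Θ x) (Φ.toFun Q Θ (oi m i y)) := hconj Q Θ
  have h2 : Φ.toFun Q Θ (oi m i y) ≠ 1 := by
    intro h
    rw [h] at h1
    obtain ⟨c, hc⟩ := isConj_iff.1 h1
    apply hΘ
    have h3 : Θ x = c⁻¹ * (c * Θ x * c⁻¹) * c := by group
    rw [h3, hc, mul_one, inv_mul_cancel]
  obtain ⟨W, _, _, π, ρ, hπ, hcent⟩ := hz ι m Q (Φ.toFun Q Θ) p i y hyp h2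
  let ρ₁ : FP m →* ρ.range := ρ.rangeRestrict
  let Θ₁ : Λ →* ρ.range := Φ.invFun ρ.range ρ₁
  have hΘ₁ : Φ.toFun ρ.range Θ₁ = ρ₁ := Φ.right_inv _ ρ₁
  let f : ρ.range →* Q := π.comp ρ.range.subtype
  have hfρ : f.comp ρ₁ = Φ.toFun Q Θ := by
    rw [← hπ]
    ext g
    rfl
  have hfρ' : ∀ g, f (ρ₁ g) = Φ.toFun Q Θ g := fun g => DFunLike.congr_fun hfρ g
  have hfΘ : f.comp Θ₁ = Θ := by
    apply Φ.injective Q
    rw [Φ.nat, hΘ₁, hfρ]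
  have hfΘ' : ∀ s, f (Θ₁ s) = Θ s := fun s => DFunLike.congr_fun hfΘ s
  have h3 := hconj ρ.range Θ₁
  rw [hΘ₁] at h3
  obtain ⟨c, hc⟩ := isConj_iff.1 h3
  let k : Multiplicative (ZMod (m i)) →* Q :=
    (MulAut.conj (f c)⁻¹).toMonoidHom.comp ((Φ.toFun Q Θ).comp (oi m i))
  have hk : ∀ a, k a = (f c)⁻¹ * Φ.toFun Q Θ (oi m i a) * f c := by
    intro a
    change (f c)⁻¹ * Φ.toFun Q Θ (oi m i a) * ((f c)⁻¹)⁻¹ = _
    rw [inv_inv]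
  refine ⟨k.range, isCyclic_of_surjective k.rangeRestrict k.rangeRestrict_surjective, ?_, ?_⟩
  · refine (Nat.card_le_card_of_surjective _ k.rangeRestrict_surjective).trans ?_
    have h4 : Nat.card (Multiplicative (ZMod (m i))) = m i := Nat.card_zmod (m i)
    exact h4.le
  · intro s hs
    obtain ⟨g, hg⟩ := ρ.rangeRestrict_surjective (c * Θ₁ s * c⁻¹)
    have hg' : ρ₁ g = c * Θ₁ s * c⁻¹ := hg
    have hs1 : Θ₁ s * Θ₁ x = Θ₁ x * Θ₁ s := by rw [← map_mul, hs, map_mul]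
    have h5 : ρ₁ g * ρ₁ (oi m i y) = ρ₁ (oi m i y) * ρ₁ g := by
      rw [← hc, hg']
      calc c * Θ₁ s * c⁻¹ * (c * Θ₁ x * c⁻¹) = c * (Θ₁ s * Θ₁ x) * c⁻¹ := by group
        _ = c * (Θ₁ x * Θ₁ s) * c⁻¹ := by rw [hs1]
        _ = c * Θ₁ x * c⁻¹ * (c * Θ₁ s * c⁻¹) := by group
    have h6 : ρ g * ρ (oi m i y) = ρ (oi m i y) * ρ g := congrArg Subtype.val h5
    obtain ⟨a, ha⟩ := hcent g h6
    have ha' : Φ.toFun Q Θ (oi m i a) = Φ.toFun Q Θ g := ha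
    refine ⟨a, ?_⟩
    rw [hk, ha', ← hfρ', hg', map_mul, map_mul, map_inv, hfΘ']
    group

end Pool.Agent.VF
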