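import Pool.Agent.Lib.MP_305fdd_al.VF.P.Stm

/-!
# MP_305fdd_al, block VF, part (P): proof of [VF P p1]
-/

set_option autoImplicit false

namespace Pool.Agent.VF

open Pool.Agent.MP_305fdd_al Pool.Agent.Lib.MP_305fdd_al

private theorem p1_core {ι : Type} [Fintype ι] [DecidableEq ι] {m : ι → ℕ}
    (hpr : ∀ (i : {i // m i ≠ 0}) (y : Multiplicative (ZMod (m i.1))),
      pr m (oi m i.1 y) = Pi.mulSingle i y)
    {Λ : Type} [Group Λ] (Φ : NatBij Λ (FP m)) {p : ℕ} [Fact p.Prime] (x : Λ) (hx : x ^ p = 1)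
    {Q : Type} [Group Q] [Finite Q] (Θ : Λ →* Q) (h : Θ x ≠ 1 ∨ al Φ x ≠ 1) :
    ∃ (i : {i // m i ≠ 0}) (y : Multiplicative (ZMod (m i.1))), y ≠ 1 ∧
      al Φ x = Pi.mulSingle i y ∧ IsConj (Θ x) (Φ.toFun Q Θ (oi m i.1 y)) := by
  have hal : Φ.toFun _ (al Φ) = pr m := Φ.right_inv _ _
  have h1 : (Θ.prod (al Φ)) x ≠ 1 := by
    intro h1
    rcases h with h | h
    · exact h (congrArg Prod.fst h1)
    · exact h (congrArg Prod.snd h1)
  obtain ⟨i, hi, y, hy⟩ := torsion_conj Φ x hx (Θ.prod (al Φ)) h1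
  have hfst : (MonoidHom.fst Q (TF m)).comp (Φ.toFun _ (Θ.prod (al Φ))) = Φ.toFun Q Θ := by
    rw [← Φ.nat]; rfl
  have hsnd : (MonoidHom.snd Q (TF m)).comp (Φ.toFun _ (Θ.prod (al Φ))) = pr m := by
    rw [← Φ.nat, ← hal]; rfl
  have h2 : IsConj (Θ x) (Φ.toFun Q Θ (oi m i y)) := by
    have := (MonoidHom.fst Q (TF m)).map_isConj hy
    rw [← hfst]
    exact this
  have h3 : al Φ x = Pi.mulSingle (⟨i, hi⟩ : {i // m i ≠ 0}) y := by
    have h4 := (MonoidHom.snd Q (TF m)).map_isConj hy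
    rw [isConj_iff_eq] at h4
    have h5 : (MonoidHom.snd Q (TF m)) (Φ.toFun _ (Θ.prod (al Φ)) (oi m i y)) = pr m (oi m i y) :=
      DFunLike.congr_fun hsnd _
    rw [h5] at h4
    exact h4.trans (hpr ⟨i, hi⟩ y)
  refine ⟨⟨i, hi⟩, y, ?_, h3, h2⟩
  rintro rfl
  rw [map_one, map_one, isConj_one_left] at hy
  exact h1 hy

theorem p_p1 (hpr : S_pr) : S_p1 := by
  intro ι _ m Λ _ Φ hrf p _ x hx hx1
  let _ : DecidableEq ι := Classical.decEq ι
  have : Fintype ι := Fintype.ofFinite ι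
  have hpr1 := (hpr ι m).1
  obtain ⟨Q₀, _, _, Θ₀, hΘ₀⟩ := exists_sep hrf (fun _ : Unit => x) (fun _ => hx1)
  obtain ⟨i, y, hy, hal, -⟩ := p1_core hpr1 Φ x hx Θ₀ (Or.inl (hΘ₀ ()))
  have hne : al Φ x ≠ 1 := by
    intro h
    rw [hal] at h
    have := congrFun h i
    rw [Pi.mulSingle_eq_same] at this
    exact hy this
  refine ⟨hne, i.1, y, i.2, ?_, hy, ?_⟩
  · have h1 : (al Φ x) ^ p = 1 := by rw [← map_pow, hx, map_one]
    have h2 := congrFun h1 i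
    rw [Pi.pow_apply, hal, Pi.mulSingle_eq_same] at h2
    exact h2
  · intro Q _ _ Θ
    obtain ⟨j, z, hz, hal', hc⟩ := p1_core hpr1 Φ x hx Θ (Or.inr hne)
    have h1 : (Pi.mulSingle i y : TF m) = Pi.mulSingle j z := hal.symm.trans hal'
    have h2 := congrFun h1 j
    rw [Pi.mulSingle_eq_same] at h2
    by_cases hji : j = i
    · subst hji
      rw [Pi.mulSingle_eq_same] at h2
      rw [h2]
      exact hc
    · rw [Pi.mulSingle_eq_of_ne hji] at h2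
      exact absurd h2.symm hz

end Pool.Agent.VF
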