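import Pool.Agent.Lib.MP_305fdd_al.VF.P.Stm

/-! [VF P pr] values of the projection to the product of the finite factors. -/

set_option autoImplicit false

namespace Pool.Agent.VF

open Monoid Pool.Agent.MP_305fdd_al Pool.Agent.Lib.MP_305fdd_al

private theorem pr_va {ι : Type} (m : ι → ℕ) (k : {i // m i ≠ 0})
    (y : Multiplicative (ZMod (m k.1))) : pr m (oi m k.1 y) k = y := by
  classical
  exact DFunLike.congr_fun (ext_same (A := fun i => Multiplicative (ZMod (m i))) k.1
        (MonoidHom.id _)) y

private theorem pr_vb {ι : Type} (m : ι → ℕ) (k : {i // m i ≠ 0}) (i : ι)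
    (y : Multiplicative (ZMod (m i))) (h : i ≠ k.1) : pr m (oi m i y) k = 1 := by
  classical
  exact DFunLike.congr_fun (ext_ne (A := fun i => Multiplicative (ZMod (m i)))
        h (MonoidHom.id _)) y

theorem p_pr : S_pr := by
  intro ι _ _ m
  have h1 : ∀ (i : {i // m i ≠ 0}) (y : Multiplicative (ZMod (m i.1))),
      pr m (oi m i.1 y) = Pi.mulSingle i y := by
    intro i y
    funext k
    by_cases h : k = i
    · subst h
      rw [Pi.mulSingle_eq_same]
      exact pr_va m k y
    · rw [Pi.mulSingle_eq_of_ne h]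
      exact pr_vb m k i.1 y (fun h' => h (Subtype.ext h'.symm))
  refine ⟨h1, ?_, ?_⟩
  · intro i y hi
    funext k
    have hk : i ≠ k.1 := by
      intro h
      exact k.2 (h ▸ hi)
    exact pr_vb m k i y hk
  · intro x
    have h2 : x ∈ (pr m).range := by
      refine Subgroup.pi_mem_of_mulSingle_mem x ?_
      intro i
      exact ⟨oi m i.1 (x i), h1 i (x i)⟩
    exact h2

end Pool.Agent.VF
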