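import Pool.Agent.Lib.MP_305fdd_al.VF.P.Stm

/-!
# MP_305fdd_al, block VF, part (P): a subgroup of a residually finite group with small cyclic images
is finite and cyclic.
-/

set_option autoImplicit false

namespace Pool.Agent.VF

open Pool.Agent.MP_305fdd_al Pool.Agent.Lib.MP_305fdd_al

/-- [VF P rfc] -/
theorem p_rfc : S_rfc := by
  intro Λ _ hrf H x B hx hC
  have hfin : Finite H := by
    by_contra hinf
    rw [not_finite_iff_infinite] at hinf
    let s : Fin (B + 1) → H := fun j => Infinite.natEmbedding H j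
    have hs : Function.Injective s := fun i j h =>
      Fin.ext ((Infinite.natEmbedding H).injective h)
    let f : Option {q : Fin (B + 1) × Fin (B + 1) // q.1 ≠ q.2} → Λ := fun o =>
      o.elim x fun q => (s q.1.1 : Λ)⁻¹ * (s q.1.2 : Λ)
    have hf : ∀ o, f o ≠ 1 := by
      rintro (_ | q)
      · exact hx
      · intro h
        have h1 : (s q.1.1 : Λ)⁻¹ * (s q.1.2 : Λ) = 1 := h
        rw [inv_mul_eq_one] at h1
        exact q.2 (hs (Subtype.ext h1))
    obtain ⟨Q, _, _, Θ, hΘ⟩ := exists_sep hrf f hf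
    obtain ⟨C, -, hB, hCm⟩ := hC Q Θ (hΘ none)
    have hinj : Function.Injective (fun j : Fin (B + 1) => (⟨Θ (s j), hCm _ (s j).2⟩ : C)) := by
      intro i j h
      by_contra hij
      have h1 : Θ (s i) = Θ (s j) := congrArg Subtype.val h
      have h2 := hΘ (some ⟨(i, j), hij⟩)
      apply h2
      change Θ ((s i : Λ)⁻¹ * (s j : Λ)) = 1
      rw [map_mul, map_inv, h1, inv_mul_cancel]
    have h3 := Nat.card_le_card_of_injective _ hinj
    rw [Nat.card_fin] at h3
    omega
  refine ⟨hfin, ?_⟩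
  let f : Option {h : H // h ≠ 1} → Λ := fun o => o.elim x fun h => (h.1 : Λ)
  have hf : ∀ o, f o ≠ 1 := by
    rintro (_ | h)
    · exact hx
    · intro h1
      exact h.2 (Subtype.ext h1)
  obtain ⟨Q, _, _, Θ, hΘ⟩ := exists_sep hrf f hf
  obtain ⟨C, hcyc, -, hCm⟩ := hC Q Θ (hΘ none)
  let g : H →* C := (Θ.comp H.subtype).codRestrict C fun h => hCm _ h.2
  refine isCyclic_of_injective g ?_
  rw [injective_iff_map_eq_one]
  intro h hg
  by_contra hne
  exact hΘ (some ⟨h, hne⟩) (congrArg Subtype.val hg)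

end Pool.Agent.VF
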