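import Pool.Agent.Lib.MP_305fdd_al.VF.P.Stm

/-!
# MP_305fdd_al, block VF, part (P): centralisers in finite quotients of `FP m`.
-/

set_option autoImplicit false

namespace Pool.Agent.VF

open Pool.Agent.MP_305fdd_al Pool.Agent.Lib.MP_305fdd_al Monoid

/-- a function on a finite group invariant under left multiplication by an element of order `p`
has sum `0` in `ZMod p` -/
private theorem z_sum {H : Type} [Group H] [Fintype H] (p : ℕ) [hp : Fact p.Prime] (y : H)
    (hy : y ^ p = 1) (hy1 : y ≠ 1) (f : H → ZMod p) (hf : ∀ h, f (y * h) = f h) :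
    ∑ h, f h = 0 := by
  classical
  have hord : orderOf y = p := orderOf_eq_prime hy hy1
  have hcard : Fintype.card (Subgroup.zpowers y) = p := by
    rw [Fintype.card_zpowers, hord]
  have hpow : ∀ (n : ℕ) (h : H), f (y ^ n * h) = f h := by
    intro n
    induction n with
    | zero => intro h; rw [pow_zero, one_mul]
    | succ n ih => intro h; rw [pow_succ, mul_assoc, ih, hf]
  have hinv : ∀ x ∈ Subgroup.zpowers y, ∀ h, f (x * h) = f h := by
    intro x hx h
    rw [mem_zpowers_iff_mem_range_orderOf, Finset.mem_image] at hx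
    obtain ⟨n, -, rfl⟩ := hx
    exact hpow n h
  have h1 : ∀ h : H, f h⁻¹ =
      f (Quotient.out (QuotientGroup.mk h : H ⧸ Subgroup.zpowers y))⁻¹ := by
    intro h
    obtain ⟨x, hx⟩ := QuotientGroup.mk_out_eq_mul (Subgroup.zpowers y) h
    rw [hx, mul_inv_rev, hinv _ (inv_mem x.2)]
  have h2 : ∑ h, f h = ∑ h, f h⁻¹ := (Equiv.sum_comp (Equiv.inv H) f).symm
  rw [h2, Finset.sum_congr rfl fun h _ => h1 h]
  let e : H ≃ (H ⧸ Subgroup.zpowers y) × Subgroup.zpowers y :=
    Subgroup.groupEquivQuotientProdSubgroup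
  have h3 : ∑ h, f (Quotient.out (QuotientGroup.mk h : H ⧸ Subgroup.zpowers y))⁻¹ =
      ∑ q : (H ⧸ Subgroup.zpowers y) × Subgroup.zpowers y, f (Quotient.out q.1)⁻¹ :=
    Equiv.sum_comp e (fun q => f (Quotient.out q.1)⁻¹)
  rw [h3, Fintype.sum_prod_type]
  apply Finset.sum_eq_zero
  intro q _
  show ∑ _x : Subgroup.zpowers y, f (Quotient.out q)⁻¹ = 0
  rw [Finset.sum_const, Finset.card_univ, hcard, nsmul_eq_mul, CharP.cast_eq_zero, zero_mul]

/-- the sum of `F` over the coset `k H` -/
private noncomputable def sS {Q : Type} [Group Q] (p : ℕ) (H : Subgroup Q) [Fintype H]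
    (F : Q → Multiplicative (ZMod p)) (k : Q) : ZMod p :=
  ∑ h : H, Multiplicative.toAdd (F (k * h))

private theorem sS_one {Q : Type} [Group Q] (p : ℕ) (H : Subgroup Q) [Fintype H] (k : Q) :
    sS p H 1 k = 0 := by
  unfold sS
  simp

private theorem sS_mul {Q : Type} [Group Q] (p : ℕ) (H : Subgroup Q) [Fintype H]
    (F G : Q → Multiplicative (ZMod p)) (k : Q) : sS p H (F * G) k = sS p H F k + sS p H G k := by
  unfold sS
  rw [← Finset.sum_add_distrib]
  rfl

private theorem sS_inv {Q : Type} [Group Q] (p : ℕ) (H : Subgroup Q) [Fintype H]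
    (F : Q → Multiplicative (ZMod p)) (k : Q) : sS p H F⁻¹ k = - sS p H F k := by
  unfold sS
  rw [← Finset.sum_neg_distrib]
  rfl

private theorem sS_act {Q : Type} [Group Q] (p : ℕ) (H : Subgroup Q) [Fintype H]
    (F : Q → Multiplicative (ZMod p)) (q k : Q) :
    sS p H ((mulAutArrow : Q →* MulAut (Q → Multiplicative (ZMod p))) q F) k =
      sS p H F (q⁻¹ * k) := by
  unfold sS
  apply Finset.sum_congr rfl
  intro h _
  rw [mul_assoc]
  rfl

open Classical in
private theorem sS_delta {Q : Type} [Group Q] (p : ℕ) (H : Subgroup Q) [Fintype H] (k : Q) :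
    sS p H (Pi.mulSingle 1 (Multiplicative.ofAdd 1)) k = if k⁻¹ ∈ H then 1 else 0 := by
  unfold sS
  split_ifs with hk
  · rw [Finset.sum_eq_single (⟨k⁻¹, hk⟩ : H)]
    · rw [mul_inv_cancel, Pi.mulSingle_eq_same]
      rfl
    · intro h _ hne
      rw [Pi.mulSingle_eq_of_ne]
      · rfl
      · intro h1
        apply hne
        apply Subtype.ext
        exact (inv_eq_of_mul_eq_one_right h1).symm
    · intro h
      exact absurd (Finset.mem_univ _) h
  · apply Finset.sum_eq_zero
    intro h _
    rw [Pi.mulSingle_eq_of_ne]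
    · rfl
    · intro h1
      apply hk
      rw [inv_eq_of_mul_eq_one_right h1]
      exact h.2

theorem p_z : S_z := by
  intro ι m Q _ _ θ p hp i y hy hy1
  classical
  have : Fintype Q := Fintype.ofFinite Q
  have : NeZero p := ⟨hp.out.ne_zero⟩
  let D := Multiplicative (ZMod p)
  let φ : Q →* MulAut (Q → D) := mulAutArrow
  let W := (Q → D) ⋊[φ] Q
  have hφ : ∀ (g : Q) (F : Q → D) (s : Q), φ g F s = F (g⁻¹ * s) := fun g F s => rfl
  have hfD : Finite D := (inferInstance : Finite (ZMod p))
  have hfin : Finite W := Finite.of_equiv _ SemidirectProduct.equivProd.symm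
  let δ : Q → D := Pi.mulSingle 1 (Multiplicative.ofAdd 1)
  let c : W := (SemidirectProduct.inl δ)⁻¹
  let f : ∀ j, Multiplicative (ZMod (m j)) →* W := fun j =>
    if j = i then SemidirectProduct.inr.comp (θ.comp (oi m j))
    else (MulAut.conj c).toMonoidHom.comp (SemidirectProduct.inr.comp (θ.comp (oi m j)))
  have hfi : f i = SemidirectProduct.inr.comp (θ.comp (oi m i)) := if_pos rfl
  have hfj : ∀ j, j ≠ i →
      f j = (MulAut.conj c).toMonoidHom.comp (SemidirectProduct.inr.comp (θ.comp (oi m j))) :=
    fun j hj => if_neg hj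
  let ρ : FP m →* W := CoprodI.lift f
  have hρi : ∀ a, ρ (oi m i a) = SemidirectProduct.inr (θ (oi m i a)) := by
    intro a
    show CoprodI.lift f (CoprodI.of a) = _
    rw [CoprodI.lift_of, hfi]
    rfl
  have hρj : ∀ j, j ≠ i → ∀ b,
      ρ (oi m j b) = c * SemidirectProduct.inr (θ (oi m j b)) * c⁻¹ := by
    intro j hj b
    show CoprodI.lift f (CoprodI.of b) = _
    rw [CoprodI.lift_of, hfj j hj]
    rfl
  have hcr : c.right = 1 := by
    show (SemidirectProduct.inl δ : W)⁻¹.right = 1
    rw [SemidirectProduct.inv_right, SemidirectProduct.right_inl, inv_one]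
  have hcl : c.left = δ⁻¹ := by
    show (SemidirectProduct.inl δ : W)⁻¹.left = δ⁻¹
    rw [SemidirectProduct.inv_left, SemidirectProduct.right_inl, SemidirectProduct.left_inl,
      inv_one, map_one, MulAut.one_apply]
  have hci : c⁻¹ = SemidirectProduct.inl δ := inv_inv _
  let π : W →* Q := SemidirectProduct.rightHom
  have hπ : π.comp ρ = θ := by
    apply CoprodI.ext_hom
    intro j
    refine MonoidHom.ext fun b => ?_
    show (ρ (oi m j b)).right = θ (oi m j b)
    by_cases hj : j = i
    · subst hj
      rw [hρi, SemidirectProduct.right_inr]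
    · rw [hρj j hj, SemidirectProduct.mul_right, SemidirectProduct.mul_right, hcr, hci,
        SemidirectProduct.right_inr, SemidirectProduct.right_inl, one_mul, mul_one]
  have hright : ∀ g, (ρ g).right = θ g := fun g => DFunLike.congr_fun hπ g
  let H : Subgroup Q := (θ.comp (oi m i)).range
  have : Fintype H := Fintype.ofFinite H
  have key : ∀ g : FP m, ∀ k : Q, sS p H (ρ g).left k = sS p H δ ((θ g)⁻¹ * k) - sS p H δ k := by
    intro g
    induction g using CoprodI.induction_on with
    | one =>
      intro k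
      rw [map_one, map_one, inv_one, one_mul, sub_self]
      exact sS_one p H k
    | of j b =>
      intro k
      show sS p H (ρ (oi m j b)).left k = sS p H δ ((θ (oi m j b))⁻¹ * k) - sS p H δ k
      by_cases hj : j = i
      · subst hj
        rw [hρi, SemidirectProduct.left_inr, sS_one, sS_delta, sS_delta, mul_inv_rev, inv_inv]
        have hb : θ (oi m j b) ∈ H := ⟨b, rfl⟩
        by_cases hk : k⁻¹ ∈ H
        · rw [if_pos hk, if_pos (mul_mem hk hb), sub_self]
        · rw [if_neg hk, if_neg (fun h => hk ((Subgroup.mul_mem_cancel_right H hb).mp h)),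
            sub_self]
      · have h1 : (ρ (oi m j b)).left = δ⁻¹ * φ (θ (oi m j b)) δ := by
          rw [hρj j hj, SemidirectProduct.mul_left, SemidirectProduct.mul_left,
            SemidirectProduct.mul_right, hcr, hcl, hci, SemidirectProduct.right_inr,
            SemidirectProduct.left_inr, SemidirectProduct.left_inl, map_one, mul_one, one_mul]
        rw [h1, sS_mul, sS_inv, sS_act]
        ring
    | mul g g' ih ih' =>
      intro k
      rw [map_mul, map_mul, SemidirectProduct.mul_left, hright, sS_mul]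
      have h1 : sS p H (φ (θ g) (ρ g').left) k = sS p H (ρ g').left ((θ g)⁻¹ * k) :=
        sS_act p H _ _ _
      rw [h1, ih, ih', mul_inv_rev, mul_assoc]
      ring
  refine ⟨W, inferInstance, hfin, π, ρ, hπ, ?_⟩
  intro g hg
  have hyH : θ (oi m i y) ∈ H := ⟨y, rfl⟩
  have hyp : θ (oi m i y) ^ p = 1 := by
    rw [← map_pow, ← map_pow, hy, map_one, map_one]
  have hF : ∀ s, (ρ g).left (θ (oi m i y) * s) = (ρ g).left s := by
    intro s
    have h1 := congrArg SemidirectProduct.left hg
    rw [hρi, SemidirectProduct.mul_left, SemidirectProduct.mul_left, SemidirectProduct.left_inr,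
      SemidirectProduct.right_inr, map_one, mul_one, one_mul] at h1
    have h2 := congrFun h1 (θ (oi m i y) * s)
    rw [hφ, inv_mul_cancel_left] at h2
    exact h2
  have hsum : sS p H (ρ g).left 1 = 0 := by
    unfold sS
    apply z_sum p (⟨θ (oi m i y), hyH⟩ : H)
    · exact Subtype.ext hyp
    · intro h
      exact hy1 (congrArg Subtype.val h)
    · intro h
      rw [one_mul, one_mul]
      exact congrArg Multiplicative.toAdd (hF h)
  rw [key, mul_one, sS_delta, sS_delta, inv_inv, inv_one, if_pos (one_mem H)] at hsum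
  by_contra hcon
  rw [if_neg hcon, zero_sub, neg_eq_zero] at hsum
  exact one_ne_zero hsum

end Pool.Agent.VF
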