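import Pool.Agent.Lib.MP_305fdd_al.VF.P.p_pp
import Pool.Agent.Lib.MP_305fdd_al.VF.P.p_pr
import Pool.Agent.Lib.MP_305fdd_al.VF.P.p_p1
import Pool.Agent.Lib.MP_305fdd_al.VF.P.p_z
import Pool.Agent.Lib.MP_305fdd_al.VF.P.p_loc
import Pool.Agent.Lib.MP_305fdd_al.VF.P.p_rfc
import Pool.Agent.Lib.MP_305fdd_al.VF.P.p_kf
import Pool.Agent.Lib.MP_305fdd_al.VF.P.p_r01
import Pool.Agent.Lib.MP_305fdd_al.VF.P.p_MM

/-!
# MP_305fdd_al, block VF, parts (P) and (M)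
-/

set_option autoImplicit false

namespace Pool.Agent.VF

/-- part (P) -/
theorem p_P : S_P := p_pp p_pr (p_loc (p_p1 p_pr) p_z) p_rfc (p_kf (p_p1 p_pr)) p_r01

/-- part (M) -/
theorem p_M : S_M := p_MM

end Pool.Agent.VF
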