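import Pool.Agent.Lib.MP_305fdd_al.VF.Defs
import Pool.Agent.Lib.MP_305fdd_al.F2X.P.same

/-!
# MP_305fdd_al, block VF, part (P): groups in the genus of a free product of cyclic groups. Statements
with proofs.

`pr m : FP m → TT m` is the projection to the product of the finite factors,
`al Φ : Λ → TT m` the corresponding homomorphism of `Λ` (`Φ : NatBij Λ (FP m)`).
-/

set_option autoImplicit false

namespace Pool.Agent.VF

open Pool.Agent.MP_305fdd_al Pool.Agent.Lib.MP_305fdd_al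

/-- the product of the finite factors -/
abbrev TF {ι : Type} (m : ι → ℕ) : Type := ∀ i : {i // m i ≠ 0}, Multiplicative (ZMod (m i.1))

open Classical in
/-- the projection to the product of the finite factors -/
noncomputable def pr {ι : Type} (m : ι → ℕ) : FP m →* TF m :=
  MonoidHom.pi fun i => ext (A := fun i => Multiplicative (ZMod (m i))) i.1 (MonoidHom.id _)

instance finTF {ι : Type} [Finite ι] (m : ι → ℕ) : Finite (TF m) := by
  have : ∀ i : {i // m i ≠ 0}, Finite (Multiplicative (ZMod (m i.1))) := fun i => by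
    have : NeZero (m i.1) := ⟨i.2⟩
    exact (inferInstance : Finite (ZMod (m i.1)))
  infer_instance

/-- the corresponding homomorphism of `Λ` -/
noncomputable def al {ι : Type} [Finite ι] {m : ι → ℕ} {Λ : Type} [Group Λ]
    (Φ : NatBij Λ (FP m)) : Λ →* TF m := Φ.symm.toFun _ (pr m)

/-- [VF P pr] (about 30 lines) values of `pr` on the factors; `pr` is onto.

Proof. As `prT_oi` in `Torsion2.lean` (`ext_same`, `ext_ne` from `Attach.lean`). Onto: `TF m` is a finite product; every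
element is a product of elements `Pi.mulSingle i y` (`Finset.univ`, e.g. `Subgroup.pi_mem_of_mulSingle_mem`), and `Pi.mulSingle i y =
pr m (oi m i y)`. -/
def S_pr : Prop :=
  ∀ (ι : Type) [Finite ι] [DecidableEq ι] (m : ι → ℕ),
    (∀ (i : {i // m i ≠ 0}) (y : Multiplicative (ZMod (m i.1))),
      pr m (oi m i.1 y) = Pi.mulSingle i y) ∧
    (∀ (i : ι) (y : Multiplicative (ZMod (m i))), m i = 0 → pr m (oi m i y) = 1) ∧
    Function.Surjective (pr m)

/-- [VF P p1] (about 60 lines) a torsion element of prime order is conjugate, in all finite quotients at the same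
time, to the image of one element of a factor. (Uses `S_pr`.)

Proof. As `conj_index`, `al_ne_one` in `Torsion2.lean` (where all `m i` are prime). For `Θ : Λ → Q` apply `torsion_conj`
(`Torsion.lean`) to `Θ.prod (al Φ)` whenever `(Θ.prod (al Φ)) x ≠ 1`: there are `i`, `m i ≠ 0`, and `y` with
`IsConj ((Θ.prod (al Φ)) x) (Φ.toFun _ (Θ.prod (al Φ)) (oi m i y))`. The first projection (naturality `Φ.nat`) gives
`IsConj (Θ x) (Φ.toFun Q Θ (oi m i y))`, the second (`TF m` is commutative: `isConj_iff_eq`, `Φ.toFun _ (al Φ) = pr m`) gives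
`al Φ x = Pi.mulSingle i y`. Residual finiteness (`exists_sep`) gives one `Θ₀` with `Θ₀ x ≠ 1`, hence `i₀, y₀` with
`al Φ x = Pi.mulSingle i₀ y₀`, and `y₀ ≠ 1` (otherwise `(Θ₀.prod (al Φ)) x` is conjugate to `1`). So `al Φ x ≠ 1`, and for every
`Θ` we get `i, y` with `Pi.mulSingle i y = al Φ x = Pi.mulSingle i₀ y₀`, `y₀ ≠ 1`, so `i = i₀`, `y = y₀`. `y₀ ^ p = 1` from
`(al Φ x) ^ p = 1`. -/
def S_p1 : Prop :=
  ∀ (ι : Type) [Finite ι] (m : ι → ℕ) (Λ : Type) [Group Λ] (Φ : NatBij Λ (FP m)),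
    Group.ResiduallyFinite Λ → ∀ (p : ℕ) [Fact p.Prime] (x : Λ), x ^ p = 1 → x ≠ 1 →
    al Φ x ≠ 1 ∧ ∃ (i : ι) (y : Multiplicative (ZMod (m i))), m i ≠ 0 ∧ y ^ p = 1 ∧ y ≠ 1 ∧
      ∀ (Q : Type) [Group Q] [Finite Q] (Θ : Λ →* Q), IsConj (Θ x) (Φ.toFun Q Θ (oi m i y))

/-- [VF P z] (about 130 lines) the key lemma on centralisers in finite quotients of `FP m`.

Proof. `D = Multiplicative (ZMod p)`, `W = (Q → D) ⋊[mulAutArrow] Q` (as in `wreath_not_comm`, `Torsion2.lean`: `(g • F) s = F (g⁻¹ * s)`),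
`π = SemidirectProduct.rightHom`, `δ = Pi.mulSingle 1 (Multiplicative.ofAdd 1) : Q → D`. Define `ρ : FP m → W` by `CoprodI.lift`:
`ρ (oi m i a) = inr (θ (oi m i a))`, and `ρ (oi m j b) = (inl δ)⁻¹ * inr (θ (oi m j b)) * inl δ` for `j ≠ i`. Then `π ∘ ρ = θ`
(`CoprodI.ext_hom`). `H = (θ.comp (oi m i)).range`, a finite group. CLAIM: for all `g`, `k : Q` (additively)
`∑_{h ∈ H} (ρ g).left (k h) = [k⁻¹ θ(g) ∈ H] - [k⁻¹ ∈ H]` in `ZMod p` (`[..]` is `1` or `0`). Induction on `g`
(`CoprodI.induction_on` or closure of the factors): `g = 1` clear; `g = oi m i a`: the left side is `0` and `θ g ∈ H`;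
`g = oi m j b`: `(ρ g).left = (q • δ) δ⁻¹`, `q = θ g`, `∑_h δ (q⁻¹ k h) = [k⁻¹ q ∈ H]`, `∑_h δ (k h) = [k⁻¹ ∈ H]`; product:
`(ρ (g g')).left = (ρ g).left * (θ g • (ρ g').left)`, so the sum for `g g'` and `k` is the sum for `g` and `k` plus the sum for `g'`
and `(θ g)⁻¹ k`. Now let `ρ g` commute with `ρ (oi m i y) = inr ȳ`, `ȳ = θ (oi m i y) ∈ H`, `ȳ ^ p = 1`, `ȳ ≠ 1`. Comparing the left
components: `F = (ρ g).left` satisfies `F (ȳ⁻¹ s) = F s` for all `s`. So `∑_{h ∈ H} F h = 0` in `ZMod p`: `h ↦ F h⁻¹` is right invariant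
under `P = zpowers ȳ` (a subgroup of `H` of order `p`), `Subgroup.groupEquivQuotientProdSubgroup : H ≃ (H ⧸ P) × P`, so the sum is
`p` times a sum over `H ⧸ P` (or: group `H` into the orbits of the free action of `P`). With `k = 1`: `[θ(g) ∈ H] = 1` in `ZMod p`, so `θ g ∈ H`. -/
def S_z : Prop :=
  ∀ (ι : Type) (m : ι → ℕ) (Q : Type) [Group Q] [Finite Q] (θ : FP m →* Q) (p : ℕ)
    [Fact p.Prime] (i : ι) (y : Multiplicative (ZMod (m i))), y ^ p = 1 → θ (oi m i y) ≠ 1 →
    ∃ (W : Type) (_ : Group W) (_ : Finite W) (π : W →* Q) (ρ : FP m →* W), π.comp ρ = θ ∧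
      ∀ g : FP m, ρ g * ρ (oi m i y) = ρ (oi m i y) * ρ g → θ g ∈ (θ.comp (oi m i)).range

/-- [VF P loc] (about 70 lines) the image of the centraliser of a torsion element in a finite quotient of `Λ`. (Uses
`S_p1`, `S_z`.)

Proof. `i, y` from `S_p1`; `θ = Φ.toFun Q Θ`; `Θ x ≠ 1` is conjugate to `θ (oi m i y)`, so this is `≠ 1`. `S_z` gives
`W, π, ρ`. Let `R = ρ.range`, `ρ₁ = ρ.rangeRestrict : FP m → R` (onto), `Θ₁ = Φ.symm.toFun R ρ₁ : Λ → R`, onto
(`NatBij.range_eq`), `Φ.toFun R Θ₁ = ρ₁`; `f = π.comp R.subtype : R → Q` satisfies `f ∘ ρ₁ = θ`, so `f ∘ Θ₁ = Θ`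
(`nat` for `Φ.symm`, `left_inv`). `S_p1` for `Θ₁`: `c * Θ₁ x * c⁻¹ = ρ₁ (oi m i y)` for some `c : R`. Take
`C = ((θ.comp (oi m i)).range).map (MulAut.conj (f c)⁻¹)`: cyclic, of order `≤ m i`. Let `s` commute with `x`. `c * Θ₁ s * c⁻¹ = ρ₁ g` for
some `g` and it commutes with `ρ₁ (oi m i y)`; hence `ρ g` commutes with `ρ (oi m i y)` (`R.subtype`), and `S_z`
gives `θ g ∈ (θ.comp (oi m i)).range`. Apply `f`: `f c * Θ s * (f c)⁻¹ = θ g`, so `Θ s ∈ C`. The bound `B` is
`m i` (`Nat.card_zmod`, `Subgroup.card_range_le` or `Nat.card_le_card_of_surjective`). -/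
def S_loc : Prop :=
  ∀ (ι : Type) [Finite ι] (m : ι → ℕ) (Λ : Type) [Group Λ] (Φ : NatBij Λ (FP m)),
    Group.ResiduallyFinite Λ → ∀ (p : ℕ) [Fact p.Prime] (x : Λ), x ^ p = 1 → x ≠ 1 →
    ∃ B : ℕ, ∀ (Q : Type) [Group Q] [Finite Q] (Θ : Λ →* Q), Θ x ≠ 1 →
      ∃ C : Subgroup Q, IsCyclic C ∧ Nat.card C ≤ B ∧ ∀ s : Λ, s * x = x * s → Θ s ∈ C

/-- [VF P rfc] (about 60 lines) a subgroup of a residually finite group with small cyclic images is finite and cyclic.

Proof. FINITE: otherwise there are `B + 1` different elements `s_0, .., s_B` of `H` (`Infinite H`, an injection `Fin (B + 1) → H`). By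
`exists_sep` (`Torsion2.lean`) for the finite family of the elements `s_j⁻¹ s_k` (`j ≠ k`) and `x` there is `Θ : Λ → Q` with all of
them `≠ 1`; the images `Θ s_j ∈ C` are different, so `B + 1 ≤ Nat.card C ≤ B`. CYCLIC: `H` is finite; by
`exists_sep` for the elements `h ≠ 1` of `H` and `x` there is `Θ` which is injective on `H` and `Θ x ≠ 1`; `H` embeds in
`C` (`isCyclic_of_injective`). -/
def S_rfc : Prop :=
  ∀ (Λ : Type) [Group Λ], Group.ResiduallyFinite Λ → ∀ (H : Subgroup Λ) (x : Λ) (B : ℕ), x ≠ 1 →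
    (∀ (Q : Type) [Group Q] [Finite Q] (Θ : Λ →* Q), Θ x ≠ 1 →
      ∃ C : Subgroup Q, IsCyclic C ∧ Nat.card C ≤ B ∧ ∀ s ∈ H, Θ s ∈ C) →
    Finite H ∧ IsCyclic H

/-- [VF P kf] (about 80 lines) the kernel of `pr` is free of finite rank. (Uses `S_p1`, `S_pr`.)

Proof. `K = (pr m).ker` has finite index in `FP m` (`TF m` is finite), `FP m` is finitely generated (`fg_coprodI` in
`Basic.lean`; there is an instance), so `K` is finitely generated (`F2X.p_fgrf`, needs `rf_FP m` of `Val.lean`, or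
`Subgroup.fg_of_index_ne_zero`). `fg_subgroup` (`Cyclic.lean`) with `N = ∏ i over m i ≠ 0` (`Allowed N k` means `k = 0 ∨ k ∣ N`)
gives `n, l'` with `l' j ≠ 1` and `e : K ≃* FP l'`. If `l' j ≠ 0` then `l' j ≥ 2` and the generator of the factor `j` gives an
element of finite order `≠ 1` of `K`, a power `x` of it has prime order `p`; `x ^ p = 1`, `x ≠ 1` in `FP m`, and
`S_p1` for `Λ = FP m`, `Φ` = the identity family (`⟨fun _ _ _ θ => θ, fun _ _ _ θ => θ, ..⟩`, so `al Φ = pr m`) gives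
`pr m x ≠ 1`, a contradiction. So `l' = 0` and `FP l' ≃* FreeGroup (Fin n)`: `Multiplicative (ZMod 0) = Multiplicative ℤ ≃*
FreeGroup Unit`, `freeGroupEquivCoprodI`, `coprodI_congr`; or directly: `FreeGroup.lift fun j => oi l' j (ofAdd 1)` with
inverse `CoprodI.lift fun j => zpowersHom _ (FreeGroup.of j)`. -/
def S_kf : Prop :=
  ∀ (ι : Type) [Finite ι] (m : ι → ℕ), ∃ r : ℕ, Nonempty ((pr m).ker ≃* FreeGroup (Fin r))

/-- [VF P r01] (about 80 lines) the free groups of rank `0` and `1` are profinitely rigid.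

Proof. `r = 0`: let `Λ` be in the genus of the trivial group. If `x ≠ 1` in `Λ`, there is a finite quotient in which `x` is not
`1`; it would be a quotient of the trivial group. So `Λ` is trivial, `Λ ≃* FreeGroup (Fin 0)` (both have one element).
`r = 1`: let `Λ` be in the genus of `G = FreeGroup (Fin 1)`. `exists_free_quotient` (`AbClass.lean`) gives `n`,
`p : Λ → Multiplicative (Fin n →₀ ℤ)` onto and `N` with `rk q Λ = n` for the primes `q ∤ N`. `hc Λ Q = hc G Q`
(`hc_eq_of_same`) and `card_hom_zmod` (`LogCount.lean`; `|Hom(A, Z/q)| = q ^ rk q A`) give `q ^ n = |Hom(G, Z/q)| = q`, so `n = 1`, and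
`p` gives a surjection `f : Λ → G` (`Multiplicative (Fin 1 →₀ ℤ) ≃* Multiplicative ℤ ≃* FreeGroup (Fin 1)`, or: let `t : Λ` be mapped to
a generator; any homomorphism to an infinite cyclic group). `equiv_of_hc_eq` (`Basic.lean`) finishes. -/
def S_r01 : Prop :=
  ProfinitelyRigid (FreeGroup (Fin 0)) ∧ ProfinitelyRigid (FreeGroup (Fin 1))

/-- [VF P pp] (about 80 lines) the main theorem of part (P). (Uses `S_pr`, `S_p1`, `S_loc`, `S_rfc`, `S_kf`, `S_r01`.)

Proof. `exists_natBij` gives `Φ : NatBij Λ (FP m)`; `T = TF m`, `α = al Φ`, `r` from `S_kf`. KERNEL: `F2X.p_same` for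
`Φ.symm : NatBij (FP m) Λ` and `pr m` (onto): `(al Φ).ker` and `(pr m).ker ≃* FreeGroup (Fin r)` have the same finite quotients;
`F2X.p_fgrf`: `(al Φ).ker` is finitely generated and residually finite. So `(al Φ).ker` is in the genus of
`FreeGroup (Fin r)`, which is rigid (`FR` for `2 ≤ r`, `S_r01` for `r ≤ 1`). CENTRALISERS: let `x ≠ 1` have finite order;
a power `z = x ^ k` has prime order `p`, `centralizer {x} ≤ centralizer {z}`; `S_loc` and `S_rfc` for
`H = centralizer {z}` and `z`: finite and cyclic, so the subgroup `centralizer {x}` is finite and cyclic. -/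
def S_pp : Prop := S_P

/-- [VF M] (about 50 lines) matching: `S_M` of `VF/Defs.lean`.

Proof. `hc (FP m') Q = hc Λ Q = hc (FP m) Q` for all finite `Q` (`hc_equiv`, `hc_eq_of_same`). `N` = the product of all nonzero
`m i` and `m' j`, `Allowed N` holds for all of them. `card_eq_of_hc_eq` (`Count.lean`) and `FP_equiv_of_card` (`Cyclic.lean`). -/
def S_MM : Prop := S_M

end Pool.Agent.VF
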