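import Pool.Agent.Lib.MP_305fdd_al.VF.P.Stm
import Pool.Agent.Lib.MP_305fdd_al.F2X.P.cor

/-!
# MP_305fdd_al, block VF, part (P): the main theorem of part (P)
-/

set_option autoImplicit false

namespace Pool.Agent.VF

open Pool.Agent.MP_305fdd_al Pool.Agent.Lib.MP_305fdd_al

private theorem pp_fr (hr01 : S_r01) (hFR : FR) (r : ℕ) : ProfinitelyRigid (FreeGroup (Fin r)) := by
  match r with
  | 0 => exact hr01.1
  | 1 => exact hr01.2
  | (r + 2) => exact hFR (r + 2) (by omega)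

theorem p_pp (hpr : S_pr) (hloc : S_loc) (hrfc : S_rfc) (hkf : S_kf)
    (hr01 : S_r01) : S_P := by
  classical
  intro hFR ι _ m Λ _ hΛ
  obtain ⟨hfg, hrf, hsame⟩ := hΛ
  obtain ⟨Φ⟩ := exists_natBij hsame
  obtain ⟨r, ⟨e⟩⟩ := hkf ι m
  refine ⟨TF m, inferInstance, inferInstance, al Φ, r, ?_, ?_, ?_⟩
  · -- the kernel
    have h1 : SameFiniteQuotients (al Φ).ker (pr m).ker :=
      F2X.p_same (FP m) Λ Φ.symm (TF m) (pr m) (hpr ι m).2.2
    have h2 : (al Φ).ker.FiniteIndex := Subgroup.finiteIndex_ker _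
    obtain ⟨h3, h4⟩ := F2X.p_fgrf Λ (al Φ).ker h2 hfg hrf
    have h5 : InGenus (FreeGroup (Fin r)) (al Φ).ker :=
      ⟨h3, h4, h1.trans (sameFQ_of_surj e.toMonoidHom e.surjective e.symm.toMonoidHom
        e.symm.surjective)⟩
    exact pp_fr hr01 hFR r _ h5
  all_goals
    intro x hx hxf
    have h0 : orderOf x ≠ 0 := hxf.orderOf_pos.ne'
    have h1 : orderOf x ≠ 1 := fun h => hx (orderOf_eq_one_iff.mp h)
    obtain ⟨p, hp, k, hk⟩ := Nat.exists_prime_and_dvd h1
    have : Fact p.Prime := ⟨hp⟩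
    have hk0 : k ≠ 0 := by
      rintro rfl
      rw [mul_zero] at hk
      exact h0 hk
    have h2 : orderOf (x ^ k) = p := by
      rw [orderOf_pow' x hk0, hk, Nat.gcd_eq_right (Dvd.intro_left p rfl)]
      exact Nat.mul_div_cancel p (Nat.pos_of_ne_zero hk0)
    have h3 : (x ^ k) ^ p = 1 := by rw [← h2, pow_orderOf_eq_one]
    have h4 : x ^ k ≠ 1 := by
      intro h5
      rw [h5, orderOf_one] at h2
      exact hp.one_lt.ne h2
    obtain ⟨B, hB⟩ := hloc ι m Λ Φ hrf p (x ^ k) h3 h4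
    obtain ⟨h5, h6⟩ := hrfc Λ hrf (Subgroup.centralizer ({x ^ k} : Set Λ)) (x ^ k) B h4 (by
      intro Q _ _ Θ hΘ
      obtain ⟨C, hC1, hC2, hC3⟩ := hB Q Θ hΘ
      refine ⟨C, hC1, hC2, fun s hs => hC3 s ?_⟩
      exact (Subgroup.mem_centralizer_singleton_iff).1 hs)
    have hle : Subgroup.centralizer ({x} : Set Λ) ≤ Subgroup.centralizer ({x ^ k} : Set Λ) := by
      intro s hs
      rw [Subgroup.mem_centralizer_singleton_iff] at hs ⊢
      exact ((Commute.pow_left (show Commute x s from hs.symm) k).eq).symm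
    first
      | exact Finite.of_injective _ (Subgroup.inclusion_injective hle)
      | exact isCyclic_of_injective _ (Subgroup.inclusion_injective hle)

end Pool.Agent.VF
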